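import Pool.Agent.U730.GC.Eq

/-!
# Many satisfiable equations over the free abelian group of rank two
-/

set_option autoImplicit false

namespace Pool.Agent.U730.GC

open Finset

lemma cbl (n : ℕ) (hn : 1 ≤ n) : 16 ^ n ≤ n.centralBinom ^ 2 * (4 * n) := by
  induction n, hn using Nat.le_induction with
  | base => simp [Nat.centralBinom]
  | succ n hn ih =>
    have h := Nat.succ_mul_centralBinom_succ n
    refine Nat.le_of_mul_le_mul_left (c := (n + 1) ^ 2) ?_ (by positivity)
    calc (n + 1) ^ 2 * 16 ^ (n + 1) = 16 * (n + 1) ^ 2 * 16 ^ n := by ring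
      _ ≤ 16 * (n + 1) ^ 2 * (n.centralBinom ^ 2 * (4 * n)) := Nat.mul_le_mul_left _ ih
      _ = 16 * n.centralBinom ^ 2 * (n + 1) * ((n + 1) * (4 * n)) := by ring
      _ ≤ 16 * n.centralBinom ^ 2 * (n + 1) * ((2 * n + 1) ^ 2) := by
          apply Nat.mul_le_mul_left
          nlinarith
      _ = (2 * (2 * n + 1) * n.centralBinom) ^ 2 * (4 * (n + 1)) := by ring
      _ = ((n + 1) * (n + 1).centralBinom) ^ 2 * (4 * (n + 1)) := by rw [h]
      _ = (n + 1) ^ 2 * ((n + 1).centralBinom ^ 2 * (4 * (n + 1))) := by ring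

lemma odd_choose (m : ℕ) : 16 ^ m ≤ ((2 * m + 1).choose m) ^ 2 * (m + 1) := by
  have h := cbl (m + 1) (by omega)
  have h1 : (m + 1).centralBinom = 2 * (2 * m + 1).choose m := by
    rw [Nat.centralBinom_eq_two_mul_choose, show 2 * (m + 1) = (2 * m + 1) + 1 by ring,
      Nat.choose_succ_succ, Nat.choose_symm_half]
    ring
  rw [h1] at h
  have h2 : 16 * 16 ^ m ≤ 16 * (((2 * m + 1).choose m) ^ 2 * (m + 1)) := by
    calc 16 * 16 ^ m = 16 ^ (m + 1) := by ring
      _ ≤ (2 * (2 * m + 1).choose m) ^ 2 * (4 * (m + 1)) := h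
      _ = 16 * (((2 * m + 1).choose m) ^ 2 * (m + 1)) := by ring
  exact Nat.le_of_mul_le_mul_left h2 (by norm_num)

lemma odd_choose_real {m n : ℕ} (h : 2 * m + 1 ≤ n) :
    (2 : ℝ) ^ (2 * m + 1) / (2 * Real.sqrt n) ≤ ((2 * m + 1).choose m : ℕ) := by
  have hn : (0 : ℝ) < n := by
    have : 0 < n := by omega
    exact_mod_cast this
  have hs : 0 < Real.sqrt n := Real.sqrt_pos.2 hn
  rw [div_le_iff₀ (by positivity)]
  have h1 : ((16 ^ m : ℕ) : ℝ) ≤ (((2 * m + 1).choose m) ^ 2 * (m + 1) : ℕ) := by
    exact_mod_cast odd_choose m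
  push_cast at h1
  have h2 : (m : ℝ) + 1 ≤ n := by
    have : m + 1 ≤ n := by omega
    exact_mod_cast this
  have h3 : ((2 : ℝ) ^ (2 * m + 1)) ^ 2 ≤
      ((((2 * m + 1).choose m : ℕ) : ℝ) * (2 * Real.sqrt n)) ^ 2 := by
    rw [mul_pow, mul_pow, Real.sq_sqrt hn.le]
    calc ((2 : ℝ) ^ (2 * m + 1)) ^ 2 = 4 * 16 ^ m := by
          rw [← pow_mul, show (16 : ℝ) = 2 ^ 4 by norm_num, ← pow_mul]
          ring
      _ ≤ 4 * ((((2 * m + 1).choose m : ℕ) : ℝ) ^ 2 * (m + 1)) := by linarith
      _ ≤ 4 * ((((2 * m + 1).choose m : ℕ) : ℝ) ^ 2 * n) := by gcongr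
      _ = (((2 * m + 1).choose m : ℕ) : ℝ) ^ 2 * (2 ^ 2 * n) := by ring
  exact (pow_le_pow_iff_left₀ (by positivity) (by positivity) two_ne_zero).1 h3

/-- many sign patterns with sum `-1` -/
lemma count_low {n : ℕ} (S : Finset (Fin n)) (m : ℕ) (hm : S.card = 2 * m + 1) :
    ((2 * m + 1).choose m) * 2 ^ (n - S.card) ≤
      (univ.filter fun s : Fin n → Bool => ∑ i ∈ S, sg (s i) = -1).card := by
  classical
  have h1 : ((Finset.powersetCard m S) ×ˢ (Finset.powerset Sᶜ)).card =
      ((2 * m + 1).choose m) * 2 ^ (n - S.card) := by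
    rw [Finset.card_product, Finset.card_powersetCard, Finset.card_powerset, Finset.card_compl,
      Fintype.card_fin, hm]
  rw [← h1]
  apply Finset.card_le_card_of_injOn (fun p => fun i => decide (i ∈ p.1 ∪ p.2))
  · rintro ⟨A, B⟩ hp
    rw [Finset.mem_coe, Finset.mem_product, Finset.mem_powersetCard, Finset.mem_powerset] at hp
    obtain ⟨⟨hA, hAc⟩, hB⟩ := hp
    rw [Finset.mem_coe, Finset.mem_filter]
    refine ⟨Finset.mem_univ _, ?_⟩
    rw [sum_sg]
    have h2 : (S.filter fun i => decide (i ∈ A ∪ B) = true) = A := by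
      ext i
      simp only [Finset.mem_filter, decide_eq_true_eq, Finset.mem_union]
      constructor
      · rintro ⟨h3, h4 | h4⟩
        · exact h4
        · exact absurd h3 (Finset.mem_compl.1 (hB h4))
      · intro h3
        exact ⟨hA h3, Or.inl h3⟩
    simp only at h2 hAc hA hB ⊢
    rw [h2, hAc, hm]
    push_cast
    ring
  · rintro ⟨A, B⟩ hp ⟨A', B'⟩ hp' h
    rw [Finset.mem_coe, Finset.mem_product, Finset.mem_powersetCard, Finset.mem_powerset] at hp hp'
    obtain ⟨⟨hA, -⟩, hB⟩ := hp
    obtain ⟨⟨hA', -⟩, hB'⟩ := hp'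
    simp only at hA hB hA' hB'
    have h2 : ∀ i, i ∈ A ∪ B ↔ i ∈ A' ∪ B' := by
      intro i
      exact decide_eq_decide.1 (congrFun h i)
    have e1 : A = A' := by
      ext i
      constructor
      · intro hi
        rcases Finset.mem_union.1 ((h2 i).1 (Finset.mem_union_left _ hi)) with h3 | h3
        · exact h3
        · exact absurd (hA hi) (Finset.mem_compl.1 (hB' h3))
      · intro hi
        rcases Finset.mem_union.1 ((h2 i).2 (Finset.mem_union_left _ hi)) with h3 | h3
        · exact h3
        · exact absurd (hA' hi) (Finset.mem_compl.1 (hB h3))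
    have e2 : B = B' := by
      ext i
      constructor
      · intro hi
        rcases Finset.mem_union.1 ((h2 i).1 (Finset.mem_union_right _ hi)) with h3 | h3
        · exact absurd (hA' h3) (Finset.mem_compl.1 (hB hi))
        · exact h3
      · intro hi
        rcases Finset.mem_union.1 ((h2 i).2 (Finset.mem_union_right _ hi)) with h3 | h3
        · exact absurd (hA h3) (Finset.mem_compl.1 (hB' hi))
        · exact h3
    rw [e1, e2]

/-- words as pairs of sequences -/
lemma words_low {n : ℕ} {α : Type} [Fintype α] [DecidableEq α]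
    (P : (Fin n → α) → (Fin n → Bool) → Prop) [∀ σ s, Decidable (P σ s)] :
    ∑ σ : Fin n → α, (univ.filter fun s : Fin n → Bool => P σ s).card ≤
    (univ.filter fun w : Fin n → α × Bool => P (fun i => (w i).1) (fun i => (w i).2)).card := by
  rw [← Finset.card_sigma]
  apply Finset.card_le_card_of_injOn (fun p => fun i => (p.1 i, p.2 i))
  · rintro ⟨σ, s⟩ hp
    rw [Finset.mem_coe, Finset.mem_sigma, Finset.mem_filter] at hp
    rw [Finset.mem_coe, Finset.mem_filter]
    exact ⟨Finset.mem_univ _, hp.2.2⟩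
  · rintro ⟨σ, s⟩ _ ⟨σ', s'⟩ _ h
    have h1 : σ = σ' := funext fun i => congrArg Prod.fst (congrFun h i)
    have h2 : s = s' := funext fun i => congrArg Prod.snd (congrFun h i)
    rw [h1, h2]

/-- many index sequences contain `none` an odd number of times -/
lemma odd_many (n : ℕ) (hn : 1 ≤ n) :
    (3 : ℝ) ^ n / 3 ≤ ((univ.filter fun σ : Fin n → Option (Fin 2) =>
      (univ.filter fun i => σ i = none).card % 2 = 1).card : ℝ) := by
  have h1 : ∑ b : Option (Fin 2), (if b = none then (-1 : ℝ) else 1) = 1 := by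
    rw [Fintype.sum_option]
    simp
    norm_num
  have h2 := Fintype.sum_pow (fun b : Option (Fin 2) => if b = none then (-1 : ℝ) else 1) n
  rw [h1, one_pow] at h2
  have h3 : ∀ σ : Fin n → Option (Fin 2), ∏ i, (if σ i = none then (-1 : ℝ) else 1) =
      1 - 2 * (if (univ.filter fun i => σ i = none).card % 2 = 1 then 1 else 0) := by
    intro σ
    rw [Finset.prod_ite, Finset.prod_const, Finset.prod_const_one, mul_one]
    rcases Nat.mod_two_eq_zero_or_one (univ.filter fun i => σ i = none).card with h | h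
    · rw [if_neg (by omega), (Nat.even_iff.2 h).neg_one_pow]
      ring
    · rw [if_pos h, (Nat.odd_iff.2 h).neg_one_pow]
      ring
  simp only [h3] at h2
  rw [Finset.sum_sub_distrib, ← Finset.mul_sum, Finset.sum_boole, Finset.sum_const,
    Finset.card_univ, Fintype.card_fun, Fintype.card_fin, Fintype.card_option,
    Fintype.card_fin] at h2
  have h4 : (3 : ℝ) ≤ 3 ^ n := by
    calc (3 : ℝ) = 3 ^ 1 := by norm_num
      _ ≤ 3 ^ n := pow_le_pow_right₀ (by norm_num) hn
  simp only [nsmul_eq_mul, mul_one] at h2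
  push_cast at h2
  norm_num at h2
  linarith

/-- the words of length `n` in which the exponent sum of the unknown is `-1` -/
lemma minus_one_many (n : ℕ) (hn : 1 ≤ n) :
    (6 : ℝ) ^ n / (6 * Real.sqrt n) ≤ ((univ.filter fun w : Fin n → Option (Fin 2) × Bool =>
      ∑ l ∈ univ.filter (fun l => (w l).1 = none), sg (w l).2 = -1).card : ℝ) := by
  classical
  have h0 := words_low (n := n) (α := Option (Fin 2)) (fun σ s =>
    ∑ i ∈ univ.filter (fun i => σ i = none), sg (s i) = -1)
  have hn0 : (0 : ℝ) < n := by exact_mod_cast hn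
  have hs : 0 < Real.sqrt n := Real.sqrt_pos.2 hn0
  have h1 : ∀ σ : Fin n → Option (Fin 2),
      (if (univ.filter fun i => σ i = none).card % 2 = 1 then (2 : ℝ) ^ n / (2 * Real.sqrt n) else 0) ≤
      ((univ.filter fun s : Fin n → Bool =>
        ∑ i ∈ univ.filter (fun i => σ i = none), sg (s i) = -1).card : ℝ) := by
    intro σ
    split_ifs with h
    · obtain ⟨m, hm⟩ : ∃ m, (univ.filter fun i => σ i = none).card = 2 * m + 1 :=
        ⟨(univ.filter fun i => σ i = none).card / 2, by omega⟩
      have h5 : (univ.filter fun i => σ i = none).card ≤ n := by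
        have := Finset.card_le_univ (univ.filter fun i => σ i = none)
        rwa [Fintype.card_fin] at this
      have h2 := count_low (univ.filter fun i => σ i = none) m hm
      have h3 := odd_choose_real (m := m) (n := n) (by omega)
      have h4 : ((((2 * m + 1).choose m) * 2 ^ (n - (univ.filter fun i => σ i = none).card) : ℕ) : ℝ) ≤
          ((univ.filter fun s : Fin n → Bool =>
            ∑ i ∈ univ.filter (fun i => σ i = none), sg (s i) = -1).card : ℝ) := by
        exact_mod_cast h2
      refine le_trans ?_ h4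
      push_cast
      rw [hm]
      calc (2 : ℝ) ^ n / (2 * Real.sqrt n)
          = (2 : ℝ) ^ (2 * m + 1) / (2 * Real.sqrt n) * 2 ^ (n - (2 * m + 1)) := by
            rw [div_mul_eq_mul_div, ← pow_add, Nat.add_sub_cancel' (by omega)]
        _ ≤ ((2 * m + 1).choose m : ℕ) * 2 ^ (n - (2 * m + 1)) := by gcongr
    · positivity
  have h6 : ∑ σ : Fin n → Option (Fin 2),
      (if (univ.filter fun i => σ i = none).card % 2 = 1 then (2 : ℝ) ^ n / (2 * Real.sqrt n) else 0) ≤
      ((univ.filter fun w : Fin n → Option (Fin 2) × Bool =>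
      ∑ l ∈ univ.filter (fun l => (w l).1 = none), sg (w l).2 = -1).card : ℝ) := by
    refine (Finset.sum_le_sum fun σ _ => h1 σ).trans ?_
    exact_mod_cast h0
  refine le_trans ?_ h6
  rw [← Finset.sum_filter, Finset.sum_const, nsmul_eq_mul]
  have h7 := odd_many n hn
  have h8 : (0 : ℝ) ≤ 2 ^ n / (2 * Real.sqrt n) := by positivity
  calc (6 : ℝ) ^ n / (6 * Real.sqrt n) = 3 ^ n / 3 * (2 ^ n / (2 * Real.sqrt n)) := by
        rw [show (6 : ℝ) = 3 * 2 by norm_num, mul_pow]
        field_simp
    _ ≤ _ := by gcongr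

/-- the relator `x_0 x_1 x_0⁻¹ x_1⁻¹` -/
def comm2 : List (Fin 2 × Bool) := [(0, true), (1, true), (0, false), (1, false)]

lemma gens_comm : (PresentedGroup.of 0 : OneRel comm2) * PresentedGroup.of 1 =
    PresentedGroup.of 1 * PresentedGroup.of 0 := by
  have h : PresentedGroup.mk ({FreeGroup.mk comm2} : Set (FreeGroup (Fin 2)))
      (FreeGroup.mk comm2) = 1 := PresentedGroup.one_of_mem (Set.mem_singleton _)
  have h1 : FreeGroup.mk comm2 = FreeGroup.of (0 : Fin 2) * FreeGroup.of 1 *
      (FreeGroup.of 0)⁻¹ * (FreeGroup.of 1)⁻¹ := by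
    simp [comm2, FreeGroup.of, FreeGroup.inv_mk, FreeGroup.mul_mk, FreeGroup.invRev]
  have h3 : PresentedGroup.mk ({FreeGroup.mk comm2} : Set (FreeGroup (Fin 2)))
      (FreeGroup.of (0 : Fin 2) * FreeGroup.of 1 * (FreeGroup.of 0)⁻¹ * (FreeGroup.of 1)⁻¹) = 1 := by
    rw [← h1]
    exact h
  rw [map_mul, map_mul, map_mul, map_inv, map_inv] at h3
  have h2 : (PresentedGroup.of 0 : OneRel comm2) * PresentedGroup.of 1 *
      (PresentedGroup.of 0)⁻¹ * (PresentedGroup.of 1)⁻¹ = 1 := h3
  rw [mul_inv_eq_one, mul_inv_eq_iff_eq_mul] at h2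
  exact h2

lemma group_comm (a b : OneRel comm2) : a * b = b * a := by
  have h1 : ∀ i j : Fin 2, (PresentedGroup.of i : OneRel comm2) * PresentedGroup.of j =
      PresentedGroup.of j * PresentedGroup.of i := by
    intro i j
    fin_cases i <;> fin_cases j
    · rfl
    · exact gens_comm
    · exact gens_comm.symm
    · rfl
  have h2 : ∀ (i : Fin 2) (a : OneRel comm2), a * PresentedGroup.of i = PresentedGroup.of i * a := by
    intro i a
    have h3 : Subgroup.closure (Set.range (PresentedGroup.of : Fin 2 → OneRel comm2)) ≤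
        Subgroup.centralizer {PresentedGroup.of i} := by
      rw [Subgroup.closure_le]
      rintro _ ⟨j, rfl⟩
      rw [SetLike.mem_coe, Subgroup.mem_centralizer_iff]
      intro z hz
      rw [Set.mem_singleton_iff] at hz
      rw [hz]
      exact h1 i j
    rw [PresentedGroup.closure_range_of] at h3
    have h4 : a ∈ Subgroup.centralizer {PresentedGroup.of i} := h3 (Subgroup.mem_top a)
    rw [Subgroup.mem_centralizer_iff] at h4
    exact (h4 _ (Set.mem_singleton _)).symm
  have h3 : Subgroup.closure (Set.range (PresentedGroup.of : Fin 2 → OneRel comm2)) ≤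
      Subgroup.centralizer {a} := by
    rw [Subgroup.closure_le]
    rintro _ ⟨j, rfl⟩
    rw [SetLike.mem_coe, Subgroup.mem_centralizer_iff]
    intro z hz
    rw [Set.mem_singleton_iff] at hz
    rw [hz]
    exact h2 j a
  rw [PresentedGroup.closure_range_of] at h3
  have h4 : b ∈ Subgroup.centralizer {a} := h3 (Subgroup.mem_top b)
  rw [Subgroup.mem_centralizer_iff] at h4
  exact h4 _ (Set.mem_singleton _)

lemma value_comm (g : OneRel comm2) (w : List (Option (Fin 2) × Bool)) :
    value g w = g ^ (wt (fun b : Option (Fin 2) => if b = none then 1 else 0) w) * value 1 w := by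
  have hl : ∀ p : Option (Fin 2) × Bool, letter g p =
      g ^ (sg p.2 * (if p.1 = none then 1 else 0)) * letter (1 : OneRel comm2) p := by
    rintro ⟨b, s⟩
    cases b with
    | none => cases s <;> simp [letter, sg]
    | some i => cases s <;> simp [letter, sg]
  unfold value wt
  induction w with
  | nil => simp
  | cons p w ih =>
    rw [List.map_cons, List.prod_cons, ih, hl, List.map_cons, List.sum_cons, List.map_cons,
      List.prod_cons, zpow_add]
    set A := g ^ (sg p.2 * (if p.1 = none then 1 else 0))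
    set L := letter (1 : OneRel comm2) p
    set Z := g ^ (List.map (fun p : Option (Fin 2) × Bool =>
      sg p.2 * (fun b : Option (Fin 2) => if b = none then 1 else 0) p.1) w).sum
    rw [mul_assoc, ← mul_assoc L Z, group_comm L Z, mul_assoc Z L, ← mul_assoc]

lemma solvable_of (w : List (Option (Fin 2) × Bool))
    (h : wt (fun b : Option (Fin 2) => if b = none then 1 else 0) w = -1) : Solvable comm2 w := by
  refine ⟨value 1 w, ?_⟩
  rw [value_comm, h, zpow_neg_one, inv_mul_cancel]

end Pool.Agent.U730.GC
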