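import Pool.Agent.U730.GC.Cnt

/-!
# Sign patterns for which one signed sum divides another one
-/

set_option autoImplicit false

namespace Pool.Agent.U730.GC

open Finset

/-- the signed sum of the weights `f` of the letters of a word, given by the sequence `σ` of the
letters and the sequence `s` of the signs -/
def tot {n : ℕ} {α : Type} (f : α → ℤ) (σ : Fin n → α) (s : Fin n → Bool) : ℤ :=
  ∑ i, sg (s i) * f (σ i)

lemma abs_sg (b : Bool) : |sg b| = 1 := by cases b <;> simp [sg]

lemma tot_le {n : ℕ} {α : Type} (f : α → ℤ) (B : ℕ) (hf : ∀ a, |f a| ≤ B) (σ : Fin n → α)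
    (s : Fin n → Bool) : (tot f σ s).natAbs ≤ n * B := by
  have h : |tot f σ s| ≤ n * B := by
    unfold tot
    refine (Finset.abs_sum_le_sum_abs _ _).trans ?_
    calc ∑ i, |sg (s i) * f (σ i)| ≤ ∑ _i : Fin n, (B : ℤ) := by
          apply Finset.sum_le_sum
          intro i _
          rw [abs_mul, abs_sg, one_mul]
          exact hf _
      _ = n * B := by simp
  have h2 : ((tot f σ s).natAbs : ℤ) ≤ ((n * B : ℕ) : ℤ) := by
    rw [Int.natCast_natAbs]
    push_cast
    exact h
  exact_mod_cast h2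

/-- the sum over the positions of one letter -/
lemma tot_split {n : ℕ} {α : Type} [DecidableEq α] (f : α → ℤ) (a : α) (σ : Fin n → α)
    (s : Fin n → Bool) : tot f σ s = f a * ∑ i ∈ univ.filter (fun i => σ i = a), sg (s i) +
      ∑ i ∈ univ.filter (fun i => ¬ σ i = a), sg (s i) * f (σ i) := by
  unfold tot
  rw [← Finset.sum_filter_add_sum_filter_not univ (fun i => σ i = a)]
  congr 1
  rw [Finset.mul_sum]
  apply Finset.sum_congr rfl
  intro i hi
  rw [(Finset.mem_filter.1 hi).2]
  ring

/-- the divisors of an integer -/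
def dv (c : ℤ) : Finset ℤ :=
  (Nat.divisors c.natAbs).image (fun d : ℕ => (d : ℤ)) ∪
    (Nat.divisors c.natAbs).image (fun d : ℕ => -(d : ℤ))

lemma mem_dv {e c : ℤ} (hc : c ≠ 0) (h : e ∣ c) : e ∈ dv c := by
  have h1 : e.natAbs ∈ Nat.divisors c.natAbs := by
    rw [Nat.mem_divisors]
    exact ⟨Int.natAbs_dvd_natAbs.2 h, by simpa using hc⟩
  unfold dv
  rw [Finset.mem_union, Finset.mem_image, Finset.mem_image]
  rcases Int.natAbs_eq e with h2 | h2
  · exact Or.inl ⟨_, h1, h2.symm⟩
  · exact Or.inr ⟨_, h1, h2.symm⟩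

lemma dv_card (c : ℤ) : (dv c).card ≤ 2 * (Nat.divisors c.natAbs).card := by
  unfold dv
  refine (Finset.card_union_le _ _).trans ?_
  have h1 := Finset.card_image_le (s := Nat.divisors c.natAbs) (f := fun d : ℕ => (d : ℤ))
  have h2 := Finset.card_image_le (s := Nat.divisors c.natAbs) (f := fun d : ℕ => -(d : ℤ))
  omega

/-- for a fixed sequence of letters, in which the letters `x` and `a` occur often -/
lemma fixed {n m : ℕ} {α : Type} [DecidableEq α] (f : α → ℤ) (x a : α) (hx : f x = 0) (ha : f a ≠ 0)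
    (B T : ℕ) (hf : ∀ b, |f b| ≤ B)
    (hT : ∀ c : ℕ, c ≠ 0 → c ≤ n * B → (Nat.divisors c).card ≤ T) (hm : 0 < m) (σ : Fin n → α)
    (h1 : m ≤ (univ.filter fun i => σ i = x).card) (h2 : m ≤ (univ.filter fun i => σ i = a).card) :
    ((univ.filter fun s : Fin n → Bool =>
      (∑ i ∈ univ.filter (fun i => σ i = x), sg (s i)) ∣ tot f σ s).card : ℝ) ≤
      (1 + 2 * T) * (2 ^ n / Real.sqrt m) := by
  classical
  set Sx := univ.filter (fun i => σ i = x) with hSx
  set Sa := univ.filter (fun i => σ i = a) with hSa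
  have hsub : (univ.filter fun s : Fin n → Bool => (∑ i ∈ Sx, sg (s i)) ∣ tot f σ s) ⊆
      (univ.filter fun s : Fin n → Bool => ∑ i ∈ Sa, sg (s i) ∈
        ({-(∑ i ∈ univ.filter (fun i => ¬ σ i = a), sg (s i) * f (σ i)) / f a} : Finset ℤ)) ∪
      (univ.filter fun s : Fin n → Bool => ∑ i ∈ Sx, sg (s i) ∈
        (if tot f σ s = 0 then ∅ else dv (tot f σ s))) := by
    intro s hs
    rw [Finset.mem_filter] at hs
    rw [Finset.mem_union, Finset.mem_filter, Finset.mem_filter]
    by_cases h0 : tot f σ s = 0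
    · left
      refine ⟨Finset.mem_univ _, ?_⟩
      rw [Finset.mem_singleton]
      rw [tot_split f a] at h0
      have h3 : -(∑ i ∈ univ.filter (fun i => ¬ σ i = a), sg (s i) * f (σ i)) =
          f a * ∑ i ∈ Sa, sg (s i) := by
        rw [hSa]
        linarith
      rw [h3, Int.mul_ediv_cancel_left _ ha]
    · right
      refine ⟨Finset.mem_univ _, ?_⟩
      rw [if_neg h0]
      exact mem_dv h0 hs.2
  have hA := count_sum Sa (fun s => ({-(∑ i ∈ univ.filter (fun i => ¬ σ i = a), sg (s i) * f (σ i)) /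
      f a} : Finset ℤ)) 1 (by
    intro s s' hss
    have : ∑ i ∈ univ.filter (fun i => ¬ σ i = a), sg (s i) * f (σ i) =
        ∑ i ∈ univ.filter (fun i => ¬ σ i = a), sg (s' i) * f (σ i) := by
      apply Finset.sum_congr rfl
      intro i hi
      rw [hss i]
      rw [hSa, Finset.mem_filter]
      intro h3
      exact (Finset.mem_filter.1 hi).2 h3.2
    simp only [this]) (fun s => by simp)
  have hB := count_sum Sx (fun s => if tot f σ s = 0 then ∅ else dv (tot f σ s)) (2 * T) (by
    intro s s' hss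
    have : tot f σ s = tot f σ s' := by
      unfold tot
      apply Finset.sum_congr rfl
      intro i _
      by_cases hi : σ i = x
      · rw [hi, hx, mul_zero, mul_zero]
      · rw [hss i]
        rw [hSx, Finset.mem_filter]
        intro h3
        exact hi h3.2
    simp only [this]) (fun s => by
      by_cases h0 : tot f σ s = 0
      · simp [h0]
      · rw [if_neg h0]
        refine (dv_card _).trans (Nat.mul_le_mul_left _ (hT _ ?_ (tot_le f B hf σ s)))
        simpa using h0)
  have e1 : (((univ.filter fun s : Fin n → Bool => ∑ i ∈ Sa, sg (s i) ∈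
        ({-(∑ i ∈ univ.filter (fun i => ¬ σ i = a), sg (s i) * f (σ i)) / f a} : Finset ℤ)).card : ℕ) : ℝ)
      ≤ 2 ^ n / Real.sqrt m := by
    have h3 : (((univ.filter fun s : Fin n → Bool => ∑ i ∈ Sa, sg (s i) ∈
        ({-(∑ i ∈ univ.filter (fun i => ¬ σ i = a), sg (s i) * f (σ i)) / f a} : Finset ℤ)).card : ℕ) : ℝ)
        ≤ ((1 * (Sa.card.choose (Sa.card / 2)) * 2 ^ (n - Sa.card) : ℕ) : ℝ) := by
      exact_mod_cast hA
    refine h3.trans ?_
    have h4 := central_real hm h2
    have h5 : Sa.card ≤ n := by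
      have := Finset.card_le_univ Sa
      rwa [Fintype.card_fin] at this
    push_cast
    rw [one_mul]
    calc ((Sa.card.choose (Sa.card / 2) : ℕ) : ℝ) * 2 ^ (n - Sa.card)
        ≤ 2 ^ Sa.card / Real.sqrt m * 2 ^ (n - Sa.card) := by gcongr
      _ = 2 ^ (Sa.card + (n - Sa.card)) / Real.sqrt m := by rw [pow_add]; ring
      _ = 2 ^ n / Real.sqrt m := by rw [Nat.add_sub_cancel' h5]
  have e2 : (((univ.filter fun s : Fin n → Bool => ∑ i ∈ Sx, sg (s i) ∈
        (if tot f σ s = 0 then ∅ else dv (tot f σ s))).card : ℕ) : ℝ)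
      ≤ 2 * T * (2 ^ n / Real.sqrt m) := by
    have h3 : (((univ.filter fun s : Fin n → Bool => ∑ i ∈ Sx, sg (s i) ∈
        (if tot f σ s = 0 then ∅ else dv (tot f σ s))).card : ℕ) : ℝ)
        ≤ ((2 * T * (Sx.card.choose (Sx.card / 2)) * 2 ^ (n - Sx.card) : ℕ) : ℝ) := by
      exact_mod_cast hB
    refine h3.trans ?_
    have h4 := central_real hm h1
    have h5 : Sx.card ≤ n := by
      have := Finset.card_le_univ Sx
      rwa [Fintype.card_fin] at this
    push_cast
    calc 2 * (T : ℝ) * ((Sx.card.choose (Sx.card / 2) : ℕ) : ℝ) * 2 ^ (n - Sx.card)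
        ≤ 2 * (T : ℝ) * (2 ^ Sx.card / Real.sqrt m) * 2 ^ (n - Sx.card) := by gcongr
      _ = 2 * T * (2 ^ (Sx.card + (n - Sx.card)) / Real.sqrt m) := by rw [pow_add]; ring
      _ = 2 * T * (2 ^ n / Real.sqrt m) := by rw [Nat.add_sub_cancel' h5]
  have e3 := (Finset.card_le_card hsub).trans (Finset.card_union_le _ _)
  have e4 : ((univ.filter fun s : Fin n → Bool => (∑ i ∈ Sx, sg (s i)) ∣ tot f σ s).card : ℝ) ≤
      ((univ.filter fun s : Fin n → Bool => ∑ i ∈ Sa, sg (s i) ∈
        ({-(∑ i ∈ univ.filter (fun i => ¬ σ i = a), sg (s i) * f (σ i)) / f a} : Finset ℤ)).card : ℝ) +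
      ((univ.filter fun s : Fin n → Bool => ∑ i ∈ Sx, sg (s i) ∈
        (if tot f σ s = 0 then ∅ else dv (tot f σ s))).card : ℝ) := by
    exact_mod_cast e3
  linarith

/-- words as pairs of sequences -/
lemma words {n : ℕ} {α : Type} [Fintype α] [DecidableEq α] (P : (Fin n → α) → (Fin n → Bool) → Prop)
    [∀ σ s, Decidable (P σ s)] :
    (univ.filter fun w : Fin n → α × Bool => P (fun i => (w i).1) (fun i => (w i).2)).card ≤
      ∑ σ : Fin n → α, (univ.filter fun s : Fin n → Bool => P σ s).card := by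
  rw [Finset.card_eq_sum_card_fiberwise (f := fun w : Fin n → α × Bool => fun i => (w i).1)
    (t := (univ : Finset (Fin n → α))) (fun _ _ => Finset.mem_coe.2 (Finset.mem_univ _))]
  apply Finset.sum_le_sum
  intro σ _
  apply Finset.card_le_card_of_injOn (fun w : Fin n → α × Bool => fun i => (w i).2)
  · intro w hw
    rw [Finset.mem_coe, Finset.mem_filter, Finset.mem_filter] at hw
    rw [Finset.mem_coe, Finset.mem_filter]
    refine ⟨Finset.mem_univ _, ?_⟩
    have := hw.1.2
    rwa [hw.2] at this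
  · intro w hw w' hw' h
    rw [Finset.mem_coe, Finset.mem_filter, Finset.mem_filter] at hw hw'
    funext i
    have h1 := congrFun hw.2 i
    have h2 := congrFun hw'.2 i
    have h3 := congrFun h i
    exact Prod.ext (h1.trans h2.symm) h3

/-- the words in all -/
lemma all_words {n m : ℕ} {α : Type} [Fintype α] [DecidableEq α] (f : α → ℤ) (x a : α)
    (hx : f x = 0) (ha : f a ≠ 0) (B T : ℕ) (hf : ∀ b, |f b| ≤ B)
    (hT : ∀ c : ℕ, c ≠ 0 → c ≤ n * B → (Nat.divisors c).card ≤ T) (hm : 0 < m) :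
    ((univ.filter fun w : Fin n → α × Bool =>
      (∑ i ∈ univ.filter (fun i => (w i).1 = x), sg (w i).2) ∣
        tot f (fun i => (w i).1) (fun i => (w i).2)).card : ℝ) ≤
      (2 * (Fintype.card α : ℝ)) ^ n * ((1 + 2 * T) / Real.sqrt m) +
        2 * (2 ^ n * (2 ^ m * ((Fintype.card α : ℝ) - 1 / 2) ^ n)) := by
  classical
  have h0 := words (n := n) (α := α) (fun σ s =>
    (∑ i ∈ univ.filter (fun i => σ i = x), sg (s i)) ∣ tot f σ s)
  have h1 : ((univ.filter fun w : Fin n → α × Bool =>
      (∑ i ∈ univ.filter (fun i => (w i).1 = x), sg (w i).2) ∣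
        tot f (fun i => (w i).1) (fun i => (w i).2)).card : ℝ) ≤
      ∑ σ : Fin n → α, ((univ.filter fun s : Fin n → Bool =>
        (∑ i ∈ univ.filter (fun i => σ i = x), sg (s i)) ∣ tot f σ s).card : ℝ) := by
    exact_mod_cast h0
  refine h1.trans ?_
  have h2 : ∀ σ : Fin n → α, ((univ.filter fun s : Fin n → Bool =>
        (∑ i ∈ univ.filter (fun i => σ i = x), sg (s i)) ∣ tot f σ s).card : ℝ) ≤
      (1 + 2 * T) * (2 ^ n / Real.sqrt m) +
      ((if (univ.filter fun i => σ i = x).card ≤ m then (2 : ℝ) ^ n else 0) +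
        (if (univ.filter fun i => σ i = a).card ≤ m then (2 : ℝ) ^ n else 0)) := by
    intro σ
    have hall : ((univ.filter fun s : Fin n → Bool =>
        (∑ i ∈ univ.filter (fun i => σ i = x), sg (s i)) ∣ tot f σ s).card : ℝ) ≤ 2 ^ n := by
      have := Finset.card_le_univ (univ.filter fun s : Fin n → Bool =>
        (∑ i ∈ univ.filter (fun i => σ i = x), sg (s i)) ∣ tot f σ s)
      rw [Fintype.card_fun, Fintype.card_bool, Fintype.card_fin] at this
      exact_mod_cast this
    have hX : (0 : ℝ) ≤ (1 + 2 * T) * (2 ^ n / Real.sqrt m) := by positivity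
    have h2n : (0 : ℝ) ≤ 2 ^ n := by positivity
    by_cases c1 : (univ.filter fun i => σ i = x).card ≤ m
    · rw [if_pos c1]
      split_ifs <;> linarith
    · by_cases c2 : (univ.filter fun i => σ i = a).card ≤ m
      · rw [if_pos c2, if_neg c1]
        linarith
      · rw [if_neg c1, if_neg c2]
        have := fixed f x a hx ha B T hf hT hm σ (by omega) (by omega)
        linarith
  refine (Finset.sum_le_sum fun σ _ => h2 σ).trans ?_
  rw [Finset.sum_add_distrib, Finset.sum_add_distrib, Finset.sum_const, Finset.card_univ,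
    Fintype.card_fun, Fintype.card_fin, ← Finset.sum_filter, ← Finset.sum_filter, Finset.sum_const,
    Finset.sum_const]
  have f1 := few (n := n) (m := m) x
  have f2 := few (n := n) (m := m) a
  simp only [nsmul_eq_mul]
  push_cast
  have h2n : (0 : ℝ) ≤ 2 ^ n := by positivity
  have g1 := mul_le_mul_of_nonneg_right f1 h2n
  have g2 := mul_le_mul_of_nonneg_right f2 h2n
  have g3 : (Fintype.card α : ℝ) ^ n * ((1 + 2 * T) * (2 ^ n / Real.sqrt m)) =
      (2 * (Fintype.card α : ℝ)) ^ n * ((1 + 2 * T) / Real.sqrt m) := by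
    rw [mul_pow]
    ring
  rw [g3]
  linarith

end Pool.Agent.U730.GC
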