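import Mathlib

/-!
# Counting signs and words
-/

set_option autoImplicit false

namespace Pool.Agent.U730.GC

open Finset

/-- the sign -/
def sg (b : Bool) : ℤ := if b then 1 else -1

lemma cb (n : ℕ) : n.centralBinom ^ 2 * (3 * n + 1) ≤ 16 ^ n := by
  induction n with
  | zero => simp
  | succ n ih =>
    have h := Nat.succ_mul_centralBinom_succ n
    refine Nat.le_of_mul_le_mul_left (c := (n + 1) ^ 2) ?_ (by positivity)
    calc (n + 1) ^ 2 * ((n + 1).centralBinom ^ 2 * (3 * (n + 1) + 1))
        = ((n + 1) * (n + 1).centralBinom) ^ 2 * (3 * n + 4) := by ring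
      _ = (2 * (2 * n + 1) * n.centralBinom) ^ 2 * (3 * n + 4) := by rw [h]
      _ = 4 * n.centralBinom ^ 2 * ((2 * n + 1) ^ 2 * (3 * n + 4)) := by ring
      _ ≤ 4 * n.centralBinom ^ 2 * (4 * (n + 1) ^ 2 * (3 * n + 1)) := by
          apply Nat.mul_le_mul_left
          nlinarith
      _ = 16 * (n + 1) ^ 2 * (n.centralBinom ^ 2 * (3 * n + 1)) := by ring
      _ ≤ 16 * (n + 1) ^ 2 * 16 ^ n := Nat.mul_le_mul_left _ ih
      _ = (n + 1) ^ 2 * 16 ^ (n + 1) := by ring

lemma central (m : ℕ) : (m.choose (m / 2)) ^ 2 * m ≤ 4 ^ m := by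
  rcases Nat.even_or_odd' m with ⟨n, rfl | rfl⟩
  · have h := cb n
    rw [Nat.centralBinom_eq_two_mul_choose] at h
    rw [Nat.mul_div_cancel_left n (by norm_num : 0 < 2)]
    calc ((2 * n).choose n) ^ 2 * (2 * n) ≤ ((2 * n).choose n) ^ 2 * (3 * n + 1) := by
          apply Nat.mul_le_mul_left
          omega
      _ ≤ 16 ^ n := h
      _ = 4 ^ (2 * n) := by rw [pow_mul]; norm_num
  · have h := cb (n + 1)
    have h1 : (n + 1).centralBinom = 2 * (2 * n + 1).choose n := by
      rw [Nat.centralBinom_eq_two_mul_choose, show 2 * (n + 1) = (2 * n + 1) + 1 by ring,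
        Nat.choose_succ_succ, Nat.choose_symm_half]
      ring
    rw [h1] at h
    rw [show (2 * n + 1) / 2 = n by omega]
    have h2 : 4 * ((2 * n + 1).choose n ^ 2 * (3 * n + 4)) ≤ 4 * 4 ^ (2 * n + 1) := by
      calc 4 * ((2 * n + 1).choose n ^ 2 * (3 * n + 4))
          = (2 * (2 * n + 1).choose n) ^ 2 * (3 * (n + 1) + 1) := by ring
        _ ≤ 16 ^ (n + 1) := h
        _ = 4 * 4 ^ (2 * n + 1) := by
            rw [show (16 : ℕ) = 4 ^ 2 by norm_num, ← pow_mul]
            ring
    have h3 := Nat.le_of_mul_le_mul_left h2 (by norm_num)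
    refine le_trans (Nat.mul_le_mul_left _ ?_) h3
    omega

/-- the middle binomial coefficient in real numbers -/
lemma central_real {m N : ℕ} (hm : 0 < m) (h : m ≤ N) :
    ((N.choose (N / 2) : ℕ) : ℝ) ≤ 2 ^ N / Real.sqrt m := by
  have hm' : (0 : ℝ) < m := by exact_mod_cast hm
  have hs : 0 < Real.sqrt m := Real.sqrt_pos.2 hm'
  rw [le_div_iff₀ hs]
  have h1 : (((N.choose (N / 2)) ^ 2 * N : ℕ) : ℝ) ≤ ((4 ^ N : ℕ) : ℝ) := by
    exact_mod_cast central N
  push_cast at h1
  have h2 : (m : ℝ) ≤ N := by exact_mod_cast h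
  have h3 : ((N.choose (N / 2) : ℕ) : ℝ) ^ 2 * m ≤ 4 ^ N := by
    refine le_trans ?_ h1
    gcongr
  have h4 : (((N.choose (N / 2) : ℕ) : ℝ) * Real.sqrt m) ^ 2 ≤ (2 ^ N) ^ 2 := by
    rw [mul_pow, Real.sq_sqrt hm'.le, ← pow_mul, mul_comm N 2, pow_mul]
    norm_num
    exact h3
  exact (pow_le_pow_iff_left₀ (by positivity) (by positivity) two_ne_zero).1 h4

lemma sum_sg {n : ℕ} (S : Finset (Fin n)) (x : Fin n → Bool) :
    ∑ i ∈ S, sg (x i) = 2 * ((S.filter fun i => x i = true).card : ℤ) - S.card := by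
  have h : ∀ i ∈ S, sg (x i) = 2 * (if x i = true then 1 else 0) - 1 := by
    intro i _
    unfold sg
    cases x i <;> simp
  rw [Finset.sum_congr rfl h, Finset.sum_sub_distrib, ← Finset.mul_sum, Finset.sum_boole]
  simp

/-- the number of the sign patterns with a sum in a small set which does not depend on these signs -/
lemma count_sum {n : ℕ} (S : Finset (Fin n)) (D : (Fin n → Bool) → Finset ℤ) (T : ℕ)
    (hD : ∀ s s' : Fin n → Bool, (∀ i, i ∉ S → s i = s' i) → D s = D s')
    (hT : ∀ s, (D s).card ≤ T) :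
    (univ.filter fun s : Fin n → Bool => ∑ i ∈ S, sg (s i) ∈ D s).card ≤
      T * (S.card.choose (S.card / 2)) * 2 ^ (n - S.card) := by
  classical
  set A := univ.filter fun s : Fin n → Bool => ∑ i ∈ S, sg (s i) ∈ D s with hA
  let π : (Fin n → Bool) → (↥(Sᶜ) → Bool) := fun s i => s i
  have hπ : ∀ s s' : Fin n → Bool, π s = π s' → ∀ i, i ∉ S → s i = s' i := by
    intro s s' h i hi
    exact congrFun h ⟨i, by simpa using hi⟩
  have h1 : A.card ≤ T * (S.card.choose (S.card / 2)) * (A.image π).card := by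
    apply Finset.card_le_mul_card_image
    intro a ha
    obtain ⟨s0, hs0, rfl⟩ := Finset.mem_image.1 ha
    have h2 : (A.filter fun x => π x = π s0) ⊆
        (D s0).biUnion fun d => univ.filter fun x : Fin n → Bool =>
          π x = π s0 ∧ ∑ i ∈ S, sg (x i) = d := by
      intro x hx
      rw [Finset.mem_filter] at hx
      obtain ⟨hxA, hxπ⟩ := hx
      rw [hA, Finset.mem_filter] at hxA
      rw [Finset.mem_biUnion]
      refine ⟨∑ i ∈ S, sg (x i), ?_, ?_⟩
      · rw [← hD x s0 (hπ x s0 hxπ)]
        exact hxA.2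
      · simp [hxπ]
    refine (Finset.card_le_card h2).trans ((Finset.card_biUnion_le_card_mul _ _
      (S.card.choose (S.card / 2)) ?_).trans (Nat.mul_le_mul_right _ (hT s0)))
    intro d _
    have h3 : (univ.filter fun x : Fin n → Bool =>
        π x = π s0 ∧ ∑ i ∈ S, sg (x i) = d).card ≤
        (Finset.powersetCard (((d + S.card) / 2).toNat) S).card := by
      apply Finset.card_le_card_of_injOn (fun x => S.filter fun i => x i = true)
      · intro x hx
        simp only [Finset.coe_filter, Finset.mem_univ, true_and, Set.mem_ofPred_eq] at hx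
        rw [Finset.mem_coe, Finset.mem_powersetCard]
        refine ⟨Finset.filter_subset _ _, ?_⟩
        have h4 := sum_sg S x
        rw [hx.2] at h4
        show (S.filter fun i => x i = true).card = _
        omega
      · intro x hx y hy hxy
        simp only [Finset.coe_filter, Finset.mem_univ, true_and, Set.mem_ofPred_eq] at hx hy
        funext i
        by_cases hi : i ∈ S
        · have h5 : (i ∈ S.filter fun i => x i = true) ↔ (i ∈ S.filter fun i => y i = true) := by
            simp only at hxy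
            rw [hxy]
          simp only [Finset.mem_filter, hi, true_and] at h5
          exact Bool.eq_iff_iff.2 h5
        · exact hπ x y (hx.1.trans hy.1.symm) i hi
    refine h3.trans ?_
    rw [Finset.card_powersetCard]
    exact Nat.choose_le_middle _ _
  refine h1.trans (Nat.mul_le_mul_left _ ?_)
  refine (Finset.card_le_univ _).trans ?_
  rw [Fintype.card_fun, Fintype.card_bool, Fintype.card_coe, Finset.card_compl, Fintype.card_fin]

/-- few index sequences contain a letter rarely -/
lemma few {n m : ℕ} {α : Type} [Fintype α] [DecidableEq α] (a : α) :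
    ((univ.filter fun σ : Fin n → α => (univ.filter fun i => σ i = a).card ≤ m).card : ℝ) ≤
      2 ^ m * ((Fintype.card α : ℝ) - 1 / 2) ^ n := by
  have h1 : ∑ b : α, (if b = a then (1 / 2 : ℝ) else 1) = (Fintype.card α : ℝ) - 1 / 2 := by
    have : ∀ b : α, (if b = a then (1 / 2 : ℝ) else 1) = 1 - (if b = a then (1 / 2 : ℝ) else 0) := by
      intro b
      split_ifs <;> norm_num
    simp only [this, Finset.sum_sub_distrib, Finset.sum_ite_eq', Finset.mem_univ, if_true]
    simp
  have h2 := Fintype.sum_pow (fun b : α => if b = a then (1 / 2 : ℝ) else 1) n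
  rw [h1] at h2
  rw [h2, Finset.mul_sum]
  have h3 : ∀ σ : Fin n → α, ∏ i, (if σ i = a then (1 / 2 : ℝ) else 1) =
      (1 / 2) ^ (univ.filter fun i => σ i = a).card := by
    intro σ
    rw [Finset.prod_ite, Finset.prod_const, Finset.prod_const_one, mul_one]
  calc ((univ.filter fun σ : Fin n → α => (univ.filter fun i => σ i = a).card ≤ m).card : ℝ)
      = ∑ σ ∈ univ.filter (fun σ : Fin n → α => (univ.filter fun i => σ i = a).card ≤ m), 1 := by
        simp
    _ ≤ ∑ σ ∈ univ.filter (fun σ : Fin n → α => (univ.filter fun i => σ i = a).card ≤ m),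
        2 ^ m * ∏ i, (if σ i = a then (1 / 2 : ℝ) else 1) := by
        apply Finset.sum_le_sum
        intro σ hσ
        rw [Finset.mem_filter] at hσ
        rw [h3]
        obtain ⟨d, hd⟩ := Nat.exists_eq_add_of_le hσ.2
        calc (1 : ℝ) ≤ 2 ^ d := one_le_pow₀ (by norm_num)
          _ = 2 ^ m * (1 / 2) ^ (univ.filter fun i => σ i = a).card := by
              rw [hd, pow_add, one_div, inv_pow]
              field_simp
    _ ≤ ∑ σ : Fin n → α, 2 ^ m * ∏ i, (if σ i = a then (1 / 2 : ℝ) else 1) := by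
        apply Finset.sum_le_sum_of_subset_of_nonneg (Finset.filter_subset _ _)
        intro σ _ _
        apply mul_nonneg (by positivity)
        apply Finset.prod_nonneg
        intro i _
        split_ifs <;> norm_num

end Pool.Agent.U730.GC
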