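import Pool.Agent.U730.GC.Bd

/-!
# Equations in one variable over one-relator groups: the certificate
-/

set_option autoImplicit false

namespace Pool.Agent.U730.GC

/-- the one-relator group `⟨x_0, …, x_{k-1} | r⟩` -/
abbrev OneRel {k : ℕ} (r : List (Fin k × Bool)) : Type :=
  PresentedGroup ({FreeGroup.mk r} : Set (FreeGroup (Fin k)))

/-- the value of a letter, if the unknown `none` has the value `g`; `false` is the exponent `-1` -/
def letter {k : ℕ} {r : List (Fin k × Bool)} (g : OneRel r) (p : Option (Fin k) × Bool) : OneRel r :=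
  if p.2 then p.1.elim g PresentedGroup.of else (p.1.elim g PresentedGroup.of)⁻¹

/-- the value `w(g)` -/
def value {k : ℕ} {r : List (Fin k × Bool)} (g : OneRel r) (w : List (Option (Fin k) × Bool)) :
    OneRel r := (w.map (letter g)).prod

/-- the equation `w(x) = 1` has a solution in the group -/
def Solvable {k : ℕ} (r : List (Fin k × Bool)) (w : List (Option (Fin k) × Bool)) : Prop :=
  ∃ g : OneRel r, value g w = 1

/-- the signed sum of the weights of the letters -/
def wt {α : Type} (f : α → ℤ) (l : List (α × Bool)) : ℤ := (l.map fun p => sg p.2 * f p.1).sum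

/-- the number of the letters `a` -/
def cnt {α : Type} [DecidableEq α] (a : α) (l : List α) : ℕ :=
  l.foldl (fun s b => if b = a then s + 1 else s) 0

lemma fold_add {α : Type} [DecidableEq α] (a : α) (l : List α) : ∀ c : ℕ,
    l.foldl (fun s b => if b = a then s + 1 else s) c =
      c + l.foldl (fun s b => if b = a then s + 1 else s) 0 := by
  induction l with
  | nil => simp
  | cons b l ih =>
    intro c
    rw [List.foldl_cons, List.foldl_cons, ih, ih (if b = a then 0 + 1 else 0)]
    split_ifs <;> omega

lemma cnt_cons {α : Type} [DecidableEq α] (a b : α) (l : List α) :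
    cnt a (b :: l) = (if b = a then 1 else 0) + cnt a l := by
  unfold cnt
  rw [List.foldl_cons, fold_add]

lemma wt_single {α : Type} [DecidableEq α] (a : α) (l : List (α × Bool)) :
    wt (fun b => if b = a then 1 else 0) l = (cnt (a, true) l : ℤ) - cnt (a, false) l := by
  unfold wt
  induction l with
  | nil => simp [cnt]
  | cons p l ih =>
    rw [List.map_cons, List.sum_cons, ih, cnt_cons, cnt_cons]
    obtain ⟨b, s⟩ := p
    by_cases hb : b = a
    · subst hb
      cases s <;> simp [sg] <;> ring
    · have h1 : ¬ ((b, s) = (a, true)) := fun h => hb (congrArg Prod.fst h)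
      have h2 : ¬ ((b, s) = (a, false)) := fun h => hb (congrArg Prod.fst h)
      rw [if_neg h1, if_neg h2]
      simp [hb]

lemma wt_lin {α : Type} (p q : ℤ) (f g : α → ℤ) (l : List (α × Bool)) :
    wt (fun b => p * f b + q * g b) l = p * wt f l + q * wt g l := by
  unfold wt
  induction l with
  | nil => simp
  | cons a l ih =>
    rw [List.map_cons, List.sum_cons, ih, List.map_cons, List.sum_cons, List.map_cons,
      List.sum_cons]
    ring

/-- a homomorphism to the integers -/
lemma exists_hom {k : ℕ} (r : List (Fin k × Bool)) (φ : Fin k → ℤ) (h : wt φ r = 0) :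
    ∃ Φ : OneRel r →* Multiplicative ℤ, ∀ i, Φ (PresentedGroup.of i) = Multiplicative.ofAdd (φ i) := by
  have hl : ∀ l : List (Fin k × Bool),
      FreeGroup.lift (fun i => Multiplicative.ofAdd (φ i)) (FreeGroup.mk l) =
        Multiplicative.ofAdd (wt φ l) := by
    intro l
    rw [FreeGroup.lift_mk]
    unfold wt
    induction l with
    | nil => simp
    | cons a l ih =>
      rw [List.map_cons, List.prod_cons, ih, List.map_cons, List.sum_cons, ofAdd_add]
      congr 1
      obtain ⟨i, s⟩ := a
      cases s <;> simp [sg]
  have hr : ∀ z ∈ ({FreeGroup.mk r} : Set (FreeGroup (Fin k))),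
      FreeGroup.lift (fun i => Multiplicative.ofAdd (φ i)) z = 1 := by
    intro z hz
    rw [Set.mem_singleton_iff] at hz
    rw [hz, hl, h]
    rfl
  refine ⟨PresentedGroup.toGroup hr, fun i => ?_⟩
  exact PresentedGroup.toGroup.of hr

/-- a necessary condition for solvability -/
lemma dvd_of_solvable {k : ℕ} (r : List (Fin k × Bool)) (φ : Fin k → ℤ) (h : wt φ r = 0)
    (w : List (Option (Fin k) × Bool)) (hw : Solvable r w) :
    wt (fun b : Option (Fin k) => if b = none then 1 else 0) w ∣
      wt (fun b : Option (Fin k) => b.elim 0 φ) w := by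
  obtain ⟨g, hg⟩ := hw
  obtain ⟨Φ, hΦ⟩ := exists_hom r φ h
  have hlet : ∀ p : Option (Fin k) × Bool, Multiplicative.toAdd (Φ (letter g p)) =
      Multiplicative.toAdd (Φ g) * (sg p.2 * (if p.1 = none then 1 else 0)) +
        sg p.2 * p.1.elim 0 φ := by
    rintro ⟨b, s⟩
    cases b with
    | none => cases s <;> simp [letter, sg]
    | some i => cases s <;> simp [letter, sg, hΦ]
  have key : ∀ w : List (Option (Fin k) × Bool), Multiplicative.toAdd (Φ (value g w)) =
      Multiplicative.toAdd (Φ g) * wt (fun b : Option (Fin k) => if b = none then 1 else 0) w +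
        wt (fun b : Option (Fin k) => b.elim 0 φ) w := by
    intro w
    unfold value wt
    induction w with
    | nil => simp
    | cons a l ih =>
      rw [List.map_cons, List.prod_cons, map_mul, toAdd_mul, ih, hlet, List.map_cons, List.sum_cons,
        List.map_cons, List.sum_cons]
      ring
  have h1 := key w
  rw [hg, map_one, toAdd_one] at h1
  refine ⟨-Multiplicative.toAdd (Φ g), ?_⟩
  linarith

/-- the distance of two natural numbers -/
def dst (p q : ℕ) : ℕ := (p - q) + (q - p)

lemma dst_eq (p q : ℕ) : (dst p q : ℕ) = ((p : ℤ) - q).natAbs := by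
  unfold dst
  omega

section

variable {k : ℕ} (i j : Fin k)

/-- the exponent sums -/
def up (r : List (Fin k × Bool)) (w : List (Option (Fin k) × Bool)) : ℕ :=
  if cnt (i, true) r = cnt (i, false) r then cnt (some i, true) w else
    cnt (j, true) r * cnt (some i, true) w + cnt (j, false) r * cnt (some i, false) w +
      (cnt (i, true) r * cnt (some j, false) w + cnt (i, false) r * cnt (some j, true) w)

/-- the exponent sums -/
def dn (r : List (Fin k × Bool)) (w : List (Option (Fin k) × Bool)) : ℕ :=
  if cnt (i, true) r = cnt (i, false) r then cnt (some i, false) w else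
    cnt (j, true) r * cnt (some i, false) w + cnt (j, false) r * cnt (some i, true) w +
      (cnt (i, true) r * cnt (some j, true) w + cnt (i, false) r * cnt (some j, false) w)

/-- the certificate: if it is not zero the equation has no solution -/
def cert (z : List (Fin k × Bool) × List (Option (Fin k) × Bool)) : ℕ :=
  dst (up i j z.1 z.2) (dn i j z.1 z.2) % dst (cnt (none, true) z.2) (cnt (none, false) z.2)

/-- the weights of the generators -/
def ph (r : List (Fin k × Bool)) (b : Fin k) : ℤ :=
  (if cnt (i, true) r = cnt (i, false) r then 1 else (cnt (j, true) r : ℤ) - cnt (j, false) r) *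
      (if b = i then 1 else 0) +
    (if cnt (i, true) r = cnt (i, false) r then 0 else (cnt (i, false) r : ℤ) - cnt (i, true) r) *
      (if b = j then 1 else 0)

lemma ph_r (r : List (Fin k × Bool)) : wt (ph i j r) r = 0 := by
  unfold ph
  rw [wt_lin, wt_single, wt_single]
  by_cases h : cnt (i, true) r = cnt (i, false) r
  · simp [h]
  · simp only [if_neg h]
    ring

lemma ph_w (r : List (Fin k × Bool)) (w : List (Option (Fin k) × Bool)) :
    wt (fun b : Option (Fin k) => b.elim 0 (ph i j r)) w = (up i j r w : ℤ) - dn i j r w := by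
  have h1 : (fun b : Option (Fin k) => b.elim 0 (ph i j r)) = fun b : Option (Fin k) =>
      (if cnt (i, true) r = cnt (i, false) r then 1 else (cnt (j, true) r : ℤ) - cnt (j, false) r) *
      (if b = some i then 1 else 0) +
    (if cnt (i, true) r = cnt (i, false) r then 0 else (cnt (i, false) r : ℤ) - cnt (i, true) r) *
      (if b = some j then 1 else 0) := by
    funext b
    cases b with
    | none => simp
    | some b => simp [ph]
  rw [h1, wt_lin, wt_single, wt_single]
  unfold up dn
  by_cases h : cnt (i, true) r = cnt (i, false) r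
  · simp only [if_pos h]
    ring
  · simp only [if_neg h]
    push_cast
    ring

lemma cert_zero_iff (r : List (Fin k × Bool)) (w : List (Option (Fin k) × Bool)) :
    cert i j (r, w) = 0 ↔ wt (fun b : Option (Fin k) => if b = none then 1 else 0) w ∣
      wt (fun b : Option (Fin k) => b.elim 0 (ph i j r)) w := by
  rw [ph_w, wt_single, ← Int.natAbs_dvd_natAbs, ← dst_eq, ← dst_eq, Nat.dvd_iff_mod_eq_zero]
  rfl

lemma not_solvable (r : List (Fin k × Bool)) (w : List (Option (Fin k) × Bool))
    (h : cert i j (r, w) ≠ 0) : ¬ Solvable r w := fun hw =>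
  h ((cert_zero_iff i j r w).2 (dvd_of_solvable r _ (ph_r i j r) w hw))

lemma primrec_cnt {α : Type} [Primcodable α] [DecidableEq α] (a : α) :
    Primrec (cnt a : List α → ℕ) := by
  unfold cnt
  refine Primrec.list_foldl (f := fun l : List α => l) (g := fun _ => 0)
    (h := fun (_ : List α) (p : ℕ × α) => if p.2 = a then p.1 + 1 else p.1) Primrec.id
    (Primrec.const 0) ?_
  refine Primrec.ite (c := fun z : List α × (ℕ × α) => z.2.2 = a) ?_ ?_ ?_
  · exact Primrec.eq.comp (Primrec.snd.comp Primrec.snd) (Primrec.const a)
  · exact Primrec.succ.comp (Primrec.fst.comp Primrec.snd)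
  · exact Primrec.fst.comp Primrec.snd

lemma primrec_dst : Primrec₂ dst := by
  unfold dst
  exact Primrec.nat_add.comp (Primrec.nat_sub.comp Primrec.fst Primrec.snd)
    (Primrec.nat_sub.comp Primrec.snd Primrec.fst)

lemma primrec_cert : Primrec (cert i j) := by
  have cr : ∀ a : Fin k × Bool, Primrec fun z : List (Fin k × Bool) × List (Option (Fin k) × Bool) =>
      cnt a z.1 := fun a => (primrec_cnt a).comp Primrec.fst
  have cw : ∀ a : Option (Fin k) × Bool,
      Primrec fun z : List (Fin k × Bool) × List (Option (Fin k) × Bool) =>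
      cnt a z.2 := fun a => (primrec_cnt a).comp Primrec.snd
  have hup : Primrec fun z : List (Fin k × Bool) × List (Option (Fin k) × Bool) =>
      up i j z.1 z.2 := by
    unfold up
    refine Primrec.ite (Primrec.eq.comp (cr _) (cr _)) (cw _) ?_
    exact Primrec.nat_add.comp
      (Primrec.nat_add.comp (Primrec.nat_mul.comp (cr _) (cw _)) (Primrec.nat_mul.comp (cr _) (cw _)))
      (Primrec.nat_add.comp (Primrec.nat_mul.comp (cr _) (cw _)) (Primrec.nat_mul.comp (cr _) (cw _)))
  have hdn : Primrec fun z : List (Fin k × Bool) × List (Option (Fin k) × Bool) =>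
      dn i j z.1 z.2 := by
    unfold dn
    refine Primrec.ite (Primrec.eq.comp (cr _) (cr _)) (cw _) ?_
    exact Primrec.nat_add.comp
      (Primrec.nat_add.comp (Primrec.nat_mul.comp (cr _) (cw _)) (Primrec.nat_mul.comp (cr _) (cw _)))
      (Primrec.nat_add.comp (Primrec.nat_mul.comp (cr _) (cw _)) (Primrec.nat_mul.comp (cr _) (cw _)))
  unfold cert
  exact Primrec.nat_mod.comp (primrec_dst.comp hup hdn) (primrec_dst.comp (cw _) (cw _))

end

end Pool.Agent.U730.GC
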