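import Pool.Agent.U730.GC.Eq
import Pool.Agent.H373R2.T4.DivB

/-!
# The proportion of the equations without certificate
-/

set_option autoImplicit false

namespace Pool.Agent.U730.GC

open Finset

lemma cnt_le {α : Type} [DecidableEq α] (a : α) (l : List α) : cnt a l ≤ l.length := by
  induction l with
  | nil => simp [cnt]
  | cons b l ih =>
    rw [cnt_cons, List.length_cons]
    split_ifs <;> omega

lemma ph_le {k : ℕ} (i j : Fin k) (r : List (Fin k × Bool)) (b : Option (Fin k)) :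
    |b.elim 0 (ph i j r)| ≤ ((2 * (r.length + 1) : ℕ) : ℤ) := by
  have h1 := cnt_le (i, true) r
  have h2 := cnt_le (i, false) r
  have h3 := cnt_le (j, true) r
  have h4 := cnt_le (j, false) r
  have h1' : (cnt (i, true) r : ℤ) ≤ r.length := by exact_mod_cast h1
  have h2' : (cnt (i, false) r : ℤ) ≤ r.length := by exact_mod_cast h2
  have h3' : (cnt (j, true) r : ℤ) ≤ r.length := by exact_mod_cast h3
  have h4' : (cnt (j, false) r : ℤ) ≤ r.length := by exact_mod_cast h4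
  have p1 : (0 : ℤ) ≤ cnt (i, true) r := Int.natCast_nonneg _
  have p2 : (0 : ℤ) ≤ cnt (i, false) r := Int.natCast_nonneg _
  have p3 : (0 : ℤ) ≤ cnt (j, true) r := Int.natCast_nonneg _
  have p4 : (0 : ℤ) ≤ cnt (j, false) r := Int.natCast_nonneg _
  push_cast
  cases b with
  | none =>
    simp only [Option.elim_none, abs_zero]
    positivity
  | some b =>
    simp only [Option.elim_some]
    unfold ph
    rw [abs_le]
    split_ifs <;> constructor <;> linarith

/-- the sum over the letters of a word given by a function -/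
lemma wt_ofFn {n : ℕ} {α : Type} (f : α → ℤ) (w : Fin n → α × Bool) :
    wt f (List.ofFn w) = tot f (fun i => (w i).1) (fun i => (w i).2) := by
  unfold wt tot
  rw [List.map_ofFn, List.sum_ofFn]
  rfl

lemma cert_ofFn {k n : ℕ} (i j : Fin k) (r : List (Fin k × Bool))
    (w : Fin n → Option (Fin k) × Bool) : cert i j (r, List.ofFn w) = 0 ↔
    (∑ l ∈ univ.filter (fun l => (w l).1 = none), sg (w l).2) ∣
      tot (fun b : Option (Fin k) => b.elim 0 (ph i j r)) (fun l => (w l).1) (fun l => (w l).2) := by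
  rw [cert_zero_iff, wt_ofFn, wt_ofFn]
  have : tot (fun b : Option (Fin k) => if b = none then (1 : ℤ) else 0) (fun l => (w l).1)
      (fun l => (w l).2) = ∑ l ∈ univ.filter (fun l => (w l).1 = none), sg (w l).2 := by
    unfold tot
    rw [Finset.sum_filter]
    apply Finset.sum_congr rfl
    intro l _
    by_cases h : (w l).1 = none <;> simp [h]
  rw [this]

/-- the estimate -/
theorem estimate (k : ℕ) (i j : Fin k) (hij : i ≠ j) (ε : ℝ) (hε : 0 < ε) :
    ∃ C : ℝ, 0 < C ∧ ∀ (r : List (Fin k × Bool)) (n : ℕ), 1 ≤ n →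
      ((univ.filter fun w : Fin n → Option (Fin k) × Bool =>
        cert i j (r, List.ofFn w) = 0).card : ℝ) ≤
      C * (((r.length : ℝ) + 1) * n) ^ ε / Real.sqrt n * (2 * ((k : ℝ) + 1)) ^ n := by
  obtain ⟨κ, hκ⟩ : ∃ κ : ℝ, κ = (k : ℝ) + 1 := ⟨_, rfl⟩
  have hk0 : (0 : ℝ) ≤ k := Nat.cast_nonneg k
  have hκ1 : 1 ≤ κ := by linarith
  have hcard : (Fintype.card (Option (Fin k)) : ℝ) = κ := by
    rw [Fintype.card_option, Fintype.card_fin, hκ]
    push_cast
    rfl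
  obtain ⟨q, hq⟩ : ∃ q : ℝ, q = (κ - 1 / 2) / κ := ⟨_, rfl⟩
  have hq0 : 0 < q := by
    rw [hq]
    apply div_pos <;> linarith
  have hq1 : q < 1 := by
    rw [hq, div_lt_one (by linarith)]
    linarith
  obtain ⟨M, hM⟩ := exists_pow_lt_of_lt_one (by norm_num : (0 : ℝ) < 1 / 2) hq1
  have hM0 : 0 < M := by
    rcases Nat.eq_zero_or_pos M with h | h
    · rw [h, pow_zero] at hM
      norm_num at hM
    · exact h
  have hM0' : (0 : ℝ) < M := by exact_mod_cast hM0
  obtain ⟨ρ, hρ⟩ : ∃ ρ : ℝ, ρ = Real.sqrt q := ⟨_, rfl⟩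
  have hρ0 : 0 < ρ := by rw [hρ]; exact Real.sqrt_pos.2 hq0
  have hρ1 : ρ < 1 := by
    rw [hρ, Real.sqrt_lt' one_pos]
    linarith
  have hρ2 : ρ ^ 2 = q := by rw [hρ, Real.sq_sqrt hq0.le]
  obtain ⟨C1, hC1⟩ := (tendsto_pow_const_mul_const_pow_of_abs_lt_one 1
    (by rw [abs_of_pos hρ0]; exact hρ1 : |ρ| < 1)).bddAbove_range
  have hC1' : ∀ n : ℕ, (n : ℝ) * ρ ^ n ≤ C1 := by
    intro n
    have := hC1 ⟨n, rfl⟩
    simpa using this
  have hC10 : 0 ≤ C1 := by
    have := hC1' 0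
    simpa using this
  obtain ⟨C0, hC0, hdiv⟩ := Pool.Agent.H373R2.T4.DivB.div_bound hε
  have h2ε : (0 : ℝ) < 2 ^ ε := Real.rpow_pos_of_pos two_pos _
  have hs2M : 0 < Real.sqrt (2 * M) := Real.sqrt_pos.2 (by positivity)
  refine ⟨(1 + 2 * C0 * 2 ^ ε) * Real.sqrt (2 * M) + 4 * C1, by positivity, fun r n hn => ?_⟩
  have hn0 : (0 : ℝ) < n := by exact_mod_cast hn
  have hn1 : (1 : ℝ) ≤ n := by exact_mod_cast hn
  obtain ⟨R, hR⟩ : ∃ R : ℝ, R = (((r.length : ℝ) + 1) * n) ^ ε := ⟨_, rfl⟩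
  have hL0 : (0 : ℝ) ≤ r.length := Nat.cast_nonneg _
  have hbase : (1 : ℝ) ≤ ((r.length : ℝ) + 1) * n := by nlinarith
  have hR1 : 1 ≤ R := by rw [hR]; exact Real.one_le_rpow hbase hε.le
  rw [← hR]
  set B := 2 * (r.length + 1) with hB
  have hnB : ((n * B : ℕ) : ℝ) ^ ε = 2 ^ ε * R := by
    rw [hR, ← Real.mul_rpow (by norm_num) (by positivity)]
    congr 1
    rw [hB]
    push_cast
    ring
  set T := ⌊C0 * ((n * B : ℕ) : ℝ) ^ ε⌋₊ with hT
  have hTle : (T : ℝ) ≤ C0 * (2 ^ ε * R) := by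
    rw [← hnB]
    exact Nat.floor_le (by positivity)
  have hTd : ∀ c : ℕ, c ≠ 0 → c ≤ n * B → (Nat.divisors c).card ≤ T := by
    intro c hc hcB
    apply Nat.le_floor
    refine (hdiv c hc).trans ?_
    gcongr
  -- the letter
  have hlet : ∃ a : Option (Fin k), a.elim 0 (ph i j r) ≠ 0 := by
    by_cases h : cnt (i, true) r = cnt (i, false) r
    · refine ⟨some i, ?_⟩
      simp [ph, h]
    · refine ⟨some j, ?_⟩
      have h2 : (cnt (i, false) r : ℤ) - cnt (i, true) r ≠ 0 := by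
        intro h3
        apply h
        have : (cnt (i, true) r : ℤ) = cnt (i, false) r := by linarith
        exact_mod_cast this
      simp only [Option.elim_some, ph, if_neg h, if_neg (Ne.symm hij), mul_zero, zero_add, if_true,
        mul_one]
      exact h2
  obtain ⟨a, ha⟩ := hlet
  set t := n / (2 * M) with ht
  have hmain := all_words (n := n) (m := t + 1)
    (fun b : Option (Fin k) => b.elim 0 (ph i j r)) none a rfl ha B T (ph_le i j r) hTd
    (Nat.succ_pos t)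
  have hfilt : (univ.filter fun w : Fin n → Option (Fin k) × Bool =>
      cert i j (r, List.ofFn w) = 0) = (univ.filter fun w : Fin n → Option (Fin k) × Bool =>
      (∑ l ∈ univ.filter (fun l => (w l).1 = none), sg (w l).2) ∣
      tot (fun b : Option (Fin k) => b.elim 0 (ph i j r)) (fun l => (w l).1)
        (fun l => (w l).2)) := by
    apply Finset.filter_congr
    intro w _
    exact cert_ofFn i j r w
  rw [hfilt]
  refine hmain.trans ?_
  rw [hcard]
  -- first part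
  have hsn : 0 < Real.sqrt n := Real.sqrt_pos.2 hn0
  have hm0 : (0 : ℝ) < ((t + 1 : ℕ) : ℝ) := by positivity
  have hsm : 0 < Real.sqrt ((t + 1 : ℕ) : ℝ) := Real.sqrt_pos.2 hm0
  have hnm : (n : ℝ) ≤ ((t + 1 : ℕ) : ℝ) * (2 * M) := by
    have h1 : n < 2 * M * (t + 1) := by
      rw [ht]
      have := Nat.lt_mul_div_succ n (by omega : 0 < 2 * M)
      simpa using this
    have h2 : (n : ℝ) < ((2 * M * (t + 1) : ℕ) : ℝ) := by exact_mod_cast h1
    push_cast at h2 ⊢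
    linarith
  have hsq : Real.sqrt n ≤ Real.sqrt ((t + 1 : ℕ) : ℝ) * Real.sqrt (2 * M) := by
    rw [← Real.sqrt_mul hm0.le]
    exact Real.sqrt_le_sqrt hnm
  have e1 : (1 + 2 * (T : ℝ)) / Real.sqrt ((t + 1 : ℕ) : ℝ) ≤
      (1 + 2 * C0 * 2 ^ ε) * Real.sqrt (2 * M) * R / Real.sqrt n := by
    rw [div_le_div_iff₀ hsm hsn]
    have h1 : 1 + 2 * (T : ℝ) ≤ (1 + 2 * C0 * 2 ^ ε) * R := by nlinarith
    calc (1 + 2 * (T : ℝ)) * Real.sqrt n
        ≤ ((1 + 2 * C0 * 2 ^ ε) * R) * (Real.sqrt ((t + 1 : ℕ) : ℝ) * Real.sqrt (2 * M)) := by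
          gcongr
      _ = (1 + 2 * C0 * 2 ^ ε) * Real.sqrt (2 * M) * R * Real.sqrt ((t + 1 : ℕ) : ℝ) := by ring
  -- second part
  have hMt : 2 * (M * t) ≤ n := by
    rw [ht]
    have := Nat.mul_div_le n (2 * M)
    calc 2 * (M * (n / (2 * M))) = 2 * M * (n / (2 * M)) := by ring
      _ ≤ n := this
  have e2 : (2 : ℝ) ^ (t + 1) * q ^ n ≤ 2 * ρ ^ n := by
    have h1 : (2 : ℝ) ^ t * (q ^ M) ^ t ≤ 1 := by
      rw [← mul_pow]
      apply pow_le_one₀ (by positivity)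
      linarith
    have h2 : q ^ n = (q ^ M) ^ t * q ^ (n - M * t) := by
      rw [← pow_mul, ← pow_add]
      congr 1
      omega
    have h3 : q ^ (n - M * t) ≤ ρ ^ n := by
      rw [← hρ2, ← pow_mul]
      exact pow_le_pow_of_le_one hρ0.le hρ1.le (by omega)
    have h4 : 0 ≤ q ^ (n - M * t) := by positivity
    calc (2 : ℝ) ^ (t + 1) * q ^ n
        = 2 * ((2 : ℝ) ^ t * (q ^ M) ^ t) * q ^ (n - M * t) := by rw [h2, pow_succ]; ring
      _ ≤ 2 * 1 * q ^ (n - M * t) := by gcongr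
      _ ≤ 2 * ρ ^ n := by linarith
  have e3 : ρ ^ n ≤ C1 * R / Real.sqrt n := by
    rw [le_div_iff₀ hsn]
    have h1 : Real.sqrt n ≤ n := by
      rw [Real.sqrt_le_left hn0.le]
      nlinarith
    calc ρ ^ n * Real.sqrt n ≤ ρ ^ n * n := by gcongr
      _ = n * ρ ^ n := by ring
      _ ≤ C1 := hC1' n
      _ = C1 * 1 := by ring
      _ ≤ C1 * R := by gcongr
  have e4 : (2 : ℝ) ^ n * (2 ^ (t + 1) * (κ - 1 / 2) ^ n) = (2 * κ) ^ n * (2 ^ (t + 1) * q ^ n) := by
    have : κ - 1 / 2 = κ * q := by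
      rw [hq]
      field_simp
    rw [this, mul_pow, mul_pow]
    ring
  rw [e4]
  have hpos : (0 : ℝ) ≤ (2 * κ) ^ n := by positivity
  have e5 : (2 : ℝ) ^ (t + 1) * q ^ n ≤ 2 * (C1 * R / Real.sqrt n) := by linarith
  have e6 := mul_le_mul_of_nonneg_left e5 hpos
  have e7 := mul_le_mul_of_nonneg_left e1 hpos
  rw [← hκ]
  calc (2 * κ) ^ n * ((1 + 2 * (T : ℝ)) / Real.sqrt ((t + 1 : ℕ) : ℝ)) +
        2 * ((2 * κ) ^ n * (2 ^ (t + 1) * q ^ n))
      ≤ (2 * κ) ^ n * ((1 + 2 * C0 * 2 ^ ε) * Real.sqrt (2 * M) * R / Real.sqrt n) +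
        2 * ((2 * κ) ^ n * (2 * (C1 * R / Real.sqrt n))) := by
        linarith
    _ = ((1 + 2 * C0 * 2 ^ ε) * Real.sqrt (2 * M) + 4 * C1) * R / Real.sqrt n * (2 * κ) ^ n := by
        ring

end Pool.Agent.U730.GC
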